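import Mathlib
import Pool.Agent.Y52.RS.Stm

set_option autoImplicit false

/-!
# Project RS: insertion calculus for path words (job GEN)
-/

namespace Pool.Agent.Y899.RS.GenJob

open Pool.Agent.Y52.RS Pool.Agent.Y52.RS.PW

variable {G : Type} [Group G] {C : Subgroup G}

theorem ii1 (x : G) (w : PW G C) : i x * (i x⁻¹ * w) = w := by
  rw [← mul_assoc, i_mul_i_inv, one_mul]

theorem ii2 (x : G) (w : PW G C) : i x⁻¹ * (i x * w) = w := by
  rw [← mul_assoc, i_inv_mul_i, one_mul]

theorem one_split {a b : PW G C} (h : 1 = a * b) : ∃ x : G, a = i x ∧ b = i x⁻¹ := by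
  have h1 := congrArg PW.len h
  rw [len_mul, len_one] at h1
  have ha : a = i a.g := eq_i_of_len (by omega)
  have hb : b = i b.g := eq_i_of_len (by omega)
  have h2 := congrArg PW.g h
  rw [mul_g, one_g] at h2
  refine ⟨a.g, ha, ?_⟩
  have h3 : b.g = a.g⁻¹ := (inv_eq_of_mul_eq_one_right h2.symm).symm
  rw [hb, h3]

theorem zsp {r s : Bool} {a b : PW G C} (h : z r = a * z s * b) :
    ∃ x ∈ C, a = i x ∧ b = i x⁻¹ ∧ s = r := by
  have h1 := congrArg PW.len h
  rw [len_mul, len_mul, len_z, len_z] at h1
  have ha : a = i a.g := eq_i_of_len (by omega)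
  have hb : b = i b.g := eq_i_of_len (by omega)
  rw [ha] at h
  have h2 : i a.g * z s * b = z r * 1 := by rw [mul_one, h]
  obtain ⟨h3, h4, h5⟩ := z_eq h2
  obtain ⟨x, hx1, hx2⟩ := one_split h5
  refine ⟨a.g, h3, ha, ?_, h4⟩
  have h6 : a.g = x := congrArg PW.g hx1
  rw [hx2, h6]

theorem len_letter (U V : PW G C) (s : Bool) : 1 ≤ (U * z s * V).len := by
  rw [len_mul, len_mul, len_z]; omega

variable {E : Bool → PW G C → Prop}

theorem lemX (hE : ClSys C E) {b : Bool} {W : PW G C} (hW : Gen E b W) :
    ∀ (U V : PW G C) (s : Bool) (κ : PW G C), W = U * z s * V → E s κ →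
      Gen E true (U * κ * V) := by
  induction hW with
  | base =>
    intro U V s κ h _
    exfalso
    have := len_letter U V s
    rw [← h, len_one] at this
    omega
  | insR b r U1 V1 hG ih =>
    intro U V s κ h hκ
    have h1 : U1 * (z r * (z (!r) * V1)) = U * z s * V := by
      rw [← h]; simp only [mul_assoc]
    rcases levi h1 with ⟨A', hA, hV⟩ | ⟨B', hU, hB⟩
    · have := ih U (A' * V1) s κ (by rw [hA]; simp only [mul_assoc]) hκ
      have h2 := Gen.insR true r (U * κ * A') V1 (by simpa only [mul_assoc] using this)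
      rw [hV]
      simpa only [mul_assoc] using h2
    · rcases levi hB with ⟨A', hA, hV⟩ | ⟨B2, hB', hB2⟩
      · obtain ⟨x, hx, hx1, hx2, hs⟩ := zsp hA
        subst hs
        have hκ' := hE.conj s κ x hx hκ
        obtain ⟨x1, ν, κ4, h4⟩ := exists_head (hE.len _ _ hκ')
        rw [h4] at hκ'
        have h5 := hE.rot _ _ _ _ hκ'
        have h6 := Gen.insK (E := E) b ν (U1 * i x1) (i x1⁻¹ * V1) (κ4 * z (!s) * i x1) h5
          (by rw [mul_assoc, ii1]; exact hG)
        have h7 : U * κ * V = U1 * i x1 * z ν * (κ4 * z (!s) * i x1) * (i x1⁻¹ * V1) := by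
          have e1 : U1 * i x1 * z ν * (κ4 * z (!s) * i x1) * (i x1⁻¹ * V1)
              = U1 * (i x1 * z ν * κ4) * (z (!s) * V1) := by
            simp only [mul_assoc, ii1]
          rw [e1, ← h4, hU, hV, hx1, hx2]
          simp only [mul_assoc]
        rw [h7]
        exact h6
      · rcases levi hB2 with ⟨A', hA, hV⟩ | ⟨B3, hB2', hV1⟩
        · obtain ⟨x, hx, hx1, hx2, hs⟩ := zsp hA
          subst hs
          have hκ' := hE.conj (!r) κ x hx hκ
          have h6 := Gen.insK (E := E) b r U1 V1 _ hκ' hG
          have h7 : U * κ * V = U1 * z r * (i x * κ * i x⁻¹) * V1 := by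
            rw [hU, hB', hV, hx1, hx2]
            simp only [mul_assoc]
          rw [h7]
          exact h6
        · have := ih (U1 * B3) V s κ (by rw [hV1]; simp only [mul_assoc]) hκ
          have h2 := Gen.insR true r U1 (B3 * κ * V) (by simpa only [mul_assoc] using this)
          rw [hU, hB', hB2']
          simpa only [mul_assoc] using h2
  | insK b r U1 V1 κ1 hκ1 hG ih =>
    intro U V s κ h hκ
    have h1 : U1 * (z r * (κ1 * V1)) = U * z s * V := by
      rw [← h]; simp only [mul_assoc]
    rcases levi h1 with ⟨A', hA, hV⟩ | ⟨B', hU, hB⟩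
    · have := ih U (A' * V1) s κ (by rw [hA]; simp only [mul_assoc]) hκ
      have h2 := Gen.insK (E := E) true r (U * κ * A') V1 κ1 hκ1
        (by simpa only [mul_assoc] using this)
      rw [hV]
      simpa only [mul_assoc] using h2
    · rcases levi hB with ⟨A', hA, hV⟩ | ⟨B2, hB', hB2⟩
      · obtain ⟨x, hx, hx1, hx2, hs⟩ := zsp hA
        subst hs
        have hκ' := hE.conj s κ x hx hκ
        obtain ⟨x1, ν, κ4, h4⟩ := exists_head (hE.len _ _ hκ')
        rw [h4] at hκ'
        have h5 := hE.sub _ _ _ _ _ (hE.rot _ _ _ _ hκ') hκ1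
        have h6 := Gen.insK (E := E) b ν (U1 * i x1) (i x1⁻¹ * V1) (κ4 * κ1 * i x1) h5
          (by rw [mul_assoc, ii1]; exact hG)
        have h7 : U * κ * V = U1 * i x1 * z ν * (κ4 * κ1 * i x1) * (i x1⁻¹ * V1) := by
          have e1 : U1 * i x1 * z ν * (κ4 * κ1 * i x1) * (i x1⁻¹ * V1)
              = U1 * (i x1 * z ν * κ4) * (κ1 * V1) := by
            simp only [mul_assoc, ii1]
          rw [e1, ← h4, hU, hV, hx1, hx2]
          simp only [mul_assoc]
        rw [h7]
        exact h6
      · rcases levi hB2 with ⟨A', hA, hV⟩ | ⟨B3, hB2', hV1⟩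
        · rw [hA] at hκ1
          have h6 := Gen.insK (E := E) b r U1 V1 _ (hE.sub _ _ _ _ _ hκ1 hκ) hG
          have h7 : U * κ * V = U1 * z r * (B2 * κ * A') * V1 := by
            rw [hU, hB', hV]
            simp only [mul_assoc]
          rw [h7]
          exact h6
        · have := ih (U1 * B3) V s κ (by rw [hV1]; simp only [mul_assoc]) hκ
          have h2 := Gen.insK (E := E) true r U1 (B3 * κ * V) κ1 hκ1
            (by simpa only [mul_assoc] using this)
          rw [hU, hB', hB2']
          simpa only [mul_assoc] using h2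

theorem lemMain (hE : ClSys C E) {b : Bool} {W : PW G C} (hW : Gen E b W) :
    ∀ (U V : PW G C) (s : Bool), W = U * z s * z (!s) * V → Gen E b (U * V) := by
  induction hW with
  | base =>
    intro U V s h
    exfalso
    have := len_letter (U * z s) V (!s)
    rw [← h, len_one] at this
    omega
  | insR b r U1 V1 hG ih =>
    intro U V s h
    have h1 : U1 * (z r * (z (!r) * V1)) = U * z s * (z (!s) * V) := by
      rw [← mul_assoc (U * z s), ← h]; simp only [mul_assoc]
    rcases levi h1 with ⟨A', hA, hV⟩ | ⟨B', hU, hB⟩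
    · have hV' : A' * (z r * (z (!r) * V1)) = 1 * z (!s) * V := by rw [one_mul]; exact hV.symm
      rcases levi hV' with ⟨A2, hA2, hV2⟩ | ⟨B2, h12, hB2⟩
      · have := ih U (A2 * V1) s (by rw [hA, hA2]; simp only [mul_assoc, one_mul])
        have h2 := Gen.insR b r (U * A2) V1 (by simpa only [mul_assoc] using this)
        rw [hV2]
        simpa only [mul_assoc] using h2
      · obtain ⟨x, hx1, hx2⟩ := one_split h12
        rw [hx2] at hB2
        obtain ⟨h3, h4, h5⟩ := z_eq hB2.symm
        have hxC : x ∈ C := by simpa using C.inv_mem h3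
        have h6 : V = i x * (z (!r) * V1) := by rw [h5, ii1]
        have h7 : (!r) = s := by rw [← h4]; simp
        have h8 : U * V = U1 * V1 := by
          rw [h6, hA, hx1, h7]
          rw [← mul_assoc (i x), i_mul_z hxC]
          simp only [mul_assoc]
        rw [h8]
        exact hG
    · rcases levi hB with ⟨A', hA, hV⟩ | ⟨B2, hB', hB2⟩
      · obtain ⟨x, hx, hx1, hx2, hs⟩ := zsp hA
        subst hs
        rw [hx2, ← mul_assoc] at hV
        obtain ⟨h3, h4, h5⟩ := z_eq hV.symm
        have h8 : U * V = U1 * V1 := by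
          rw [h5, hU, hx1, mul_assoc, ii1]
        rw [h8]
        exact hG
      · rcases levi hB2 with ⟨A', hA, hV⟩ | ⟨B3, hB2', hV1⟩
        · obtain ⟨x, hx, hx1, hx2, hs⟩ := zsp hA
          subst hs
          have h6 : V1 = i x * (z r * V) := by
            rw [hx2] at hV
            have : z (!!r) * V = z r * V := by simp
            rw [this] at hV
            rw [hV, ii1]
          have h8 : U * V = U1 * V1 := by
            rw [h6, hU, hB', hx1]
            rw [← mul_assoc (i x), i_mul_z hx]
            simp only [mul_assoc]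
          rw [h8]
          exact hG
        · have := ih (U1 * B3) V s (by rw [hV1]; simp only [mul_assoc])
          have h2 := Gen.insR b r U1 (B3 * V) (by simpa only [mul_assoc] using this)
          rw [hU, hB', hB2']
          simpa only [mul_assoc] using h2
  | insK b r U1 V1 κ1 hκ1 hG ih =>
    intro U V s h
    have h1 : U1 * (z r * (κ1 * V1)) = U * z s * (z (!s) * V) := by
      rw [← mul_assoc (U * z s), ← h]; simp only [mul_assoc]
    rcases levi h1 with ⟨A', hA, hV⟩ | ⟨B', hU, hB⟩
    · have hV' : A' * (z r * (κ1 * V1)) = 1 * z (!s) * V := by rw [one_mul]; exact hV.symm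
      rcases levi hV' with ⟨A2, hA2, hV2⟩ | ⟨B2, h12, hB2⟩
      · have := ih U (A2 * V1) s (by rw [hA, hA2]; simp only [mul_assoc, one_mul])
        have h2 := Gen.insK (E := E) b r (U * A2) V1 κ1 hκ1
          (by simpa only [mul_assoc] using this)
        rw [hV2]
        simpa only [mul_assoc] using h2
      · obtain ⟨x, hx1, hx2⟩ := one_split h12
        rw [hx2] at hB2
        obtain ⟨h3, h4, h5⟩ := z_eq hB2.symm
        have hxC : x ∈ C := by simpa using C.inv_mem h3
        have h6 : V = i x * (κ1 * V1) := by rw [h5, ii1]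
        have h7 : (!r) = s := by rw [← h4]; simp
        rw [h7] at hκ1
        have h9 : U1 * V1 = U * i x * z s * V1 := by
          rw [hA, hx1, mul_assoc U (i x), i_mul_z hxC]
          simp only [mul_assoc]
        have h10 := lemX hE hG (U * i x) V1 s κ1 h9 hκ1
        rw [h6]
        simpa only [mul_assoc] using h10
    · rcases levi hB with ⟨A', hA, hV⟩ | ⟨B2, hB', hB2⟩
      · obtain ⟨x, hx, hx1, hx2, hs⟩ := zsp hA
        subst hs
        obtain ⟨x1, μ, κ7, h7⟩ := exists_head (hE.len _ _ hκ1)
        rw [hx2, h7] at hV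
        have hV' : i (x⁻¹ * x1) * z μ * (κ7 * V1) = z (!s) * V := by
          rw [hV, i_mul]; simp only [mul_assoc]
        obtain ⟨h3, h4, h5⟩ := z_eq hV'
        have hx1C : x1 ∈ C := by
          have := C.mul_mem hx h3
          simpa using this
        subst h4
        have hgoal : U * V = U1 * i x1 * κ7 * V1 := by
          rw [hU, hx1, h5]
          have e1 : (i (x⁻¹ * x1) : PW G C) = i x⁻¹ * i x1 := i_mul _ _
          rw [e1]
          simp only [mul_assoc, ii1]
        rw [h7] at hκ1
        by_cases hl : κ7.len = 0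
        · exfalso
          rw [eq_i_of_len hl] at hκ1
          exact hE.two _ _ _ _ hx1C hκ1
        · obtain ⟨x2, ν, κ8, h8⟩ := exists_head (u := κ7) (by omega)
          have h9 : E (!s) (i x1 * z (!s) * i x2 * z ν * κ8) := by
            rw [h8] at hκ1
            simpa only [mul_assoc] using hκ1
          have h10 := hE.rot _ _ _ _ h9
          have h11 : E (!ν) (κ8 * i x1 * z s * z (!s) * i x2) := by
            have e1 : κ8 * z (!!s) * (i x1 * z (!s) * i x2)
                = κ8 * i x1 * z s * z (!s) * i x2 := by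
              rw [Bool.not_not, mul_assoc κ8 (i x1) (z s), i_mul_z hx1C s]
              simp only [mul_assoc]
            rw [e1] at h10
            exact h10
          have h12 := hE.close _ _ _ _ h11
          have h13 := Gen.insK (E := E) b ν (U1 * (i x1 * i x2)) (i x2⁻¹ * (i x1⁻¹ * V1)) _ h12
            (by
              have e1 : U1 * (i x1 * i x2) * (i x2⁻¹ * (i x1⁻¹ * V1)) = U1 * V1 := by
                simp only [mul_assoc, ii1]
              rw [e1]; exact hG)
          have e2 : U1 * i x1 * κ7 * V1 = U1 * (i x1 * i x2) * z ν * (κ8 * i x1 * i x2) *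
              (i x2⁻¹ * (i x1⁻¹ * V1)) := by
            rw [h8]
            simp only [mul_assoc, ii1]
          rw [hgoal, e2]
          exact h13
      · rcases levi hB2 with ⟨A', hA, hV⟩ | ⟨B3, hB2', hV1⟩
        · have hV' : A' * V1 = 1 * z (!s) * V := by rw [one_mul]; exact hV.symm
          rcases levi hV' with ⟨A2, hA2, hV2⟩ | ⟨B3, h12, hB3⟩
          · have hκ : E (!r) (B2 * z s * z (!s) * A2) := by
              rw [hA, hA2] at hκ1
              simpa only [mul_assoc, one_mul] using hκ1
            have h3 := hE.close _ _ _ _ hκ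
            have h4 := Gen.insK (E := E) b r U1 V1 _ h3 hG
            rw [hU, hB', hV2]
            simpa only [mul_assoc] using h4
          · obtain ⟨y, hy1, hy2⟩ := one_split h12
            rw [hA, hy1] at hκ1
            have h3 := hE.rot _ _ _ _ hκ1
            rw [Bool.not_not] at h3
            have h4 : U1 * V1 = U1 * i y⁻¹ * z (!s) * V := by
              rw [hB3, hy2]
              simp only [mul_assoc]
            have h5 := lemX hE hG (U1 * i y⁻¹) V (!s) _ h4 h3
            rw [hU, hB']
            have e1 : U1 * i y⁻¹ * (i y * z r * B2) * V = U1 * (z r * B2) * V := by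
              simp only [mul_assoc, ii2]
            rw [e1] at h5
            exact h5
        · have := ih (U1 * B3) V s (by rw [hV1]; simp only [mul_assoc])
          have h2 := Gen.insK (E := E) b r U1 (B3 * V) κ1 hκ1
            (by simpa only [mul_assoc] using this)
          rw [hU, hB', hB2']
          simpa only [mul_assoc] using h2

theorem main : Pool.Agent.Y52.RS.S_GEN := by
  intro G _ C E hE b s U V h
  exact lemMain hE h U V s rfl

end Pool.Agent.Y899.RS.GenJob
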