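import Mathlib
import Pool.Agent.Y52.RS.Stm

set_option autoImplicit false

/-!
# Project RS: tagged segments form a cluster system (job SEG)
-/

namespace Pool.Agent.Y899.RS.SegJob

open Pool.Agent.Y52.RS Pool.Agent.Y52.RS.PW

variable {G : Type} [Group G] {C : Subgroup G} {m : ℕ} {typ : ZMod m → Bool} {R : ZMod m → Set G}

theorem seg_left (hC : ∀ p, ∀ c ∈ C, ∀ x ∈ R p, c * x ∈ R p ∧ x * c ∈ R p)
    {p q : ZMod m} {w : ℤ} {κ : PW G C} (h : Seg m typ R p q w κ) {c : G} (hc : c ∈ C) :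
    Seg m typ R p q w (i c * κ) := by
  cases h with
  | run _ _ N x h1 h2 h3 =>
    rw [← i_mul]
    exact Seg.run p q N _ h1 h2 (fun h => (hC p c hc x (h3 h)).1)
  | cons _ a _ N x w κ h1 h2 h3 h4 =>
    have := Seg.cons (typ := typ) (R := R) p a q N (c * x) w κ h1 h2
      (fun h => (hC p c hc x (h3 h)).1) h4
    rw [i_mul] at this
    simpa only [mul_assoc] using this

theorem seg_right (hC : ∀ p, ∀ c ∈ C, ∀ x ∈ R p, c * x ∈ R p ∧ x * c ∈ R p)
    {p q : ZMod m} {w : ℤ} {κ : PW G C} (h : Seg m typ R p q w κ) {c : G} (hc : c ∈ C) :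
    Seg m typ R p q w (κ * i c) := by
  induction h with
  | run p q N x h1 h2 h3 =>
    rw [← i_mul]
    exact Seg.run p q N _ h1 h2 (fun h => (hC p c hc x (h3 h)).2)
  | cons p a q N x w κ h1 h2 h3 h4 ih =>
    have := Seg.cons (typ := typ) (R := R) p a q N x w _ h1 h2 h3 ih
    simpa only [mul_assoc] using this

theorem seg_len {p q : ZMod m} {w : ℤ} {κ : PW G C} (h : Seg m typ R p q w κ) :
    w ≤ (κ.len : ℤ) := by
  induction h with
  | run p q N x h1 h2 h3 =>
    rw [len_i]; push_cast; omega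
  | cons p a q N x w κ h1 h2 h3 h4 ih =>
    rw [len_mul, len_mul, len_i, len_z]; push_cast; omega

theorem seg_zero {p q : ZMod m} {w : ℤ} {κ : PW G C} (h : Seg m typ R p q w κ) {x : G}
    (hκ : κ = i x) :
    ∃ N : ℕ, w = -(N : ℤ) ∧ (N : ZMod m) = p - q ∧ typ p = typ q ∧ (N = 0 → x ∈ R p) := by
  cases h with
  | run _ _ N y h1 h2 h3 =>
    have hxy : y = x := congrArg PW.g hκ
    subst hxy
    exact ⟨N, rfl, h2, h1, h3⟩
  | cons _ a _ N y w κ h1 h2 h3 h4 =>
    exfalso
    have := congrArg PW.len hκ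
    rw [len_mul, len_mul, len_i, len_z, len_i] at this
    omega

theorem seg_dec (hC : ∀ p, ∀ c ∈ C, ∀ x ∈ R p, c * x ∈ R p ∧ x * c ∈ R p)
    {p q : ZMod m} {w : ℤ} {W : PW G C} (h : Seg m typ R p q w W) :
    ∀ (a b : PW G C) (t : Bool), W = a * z t * b →
      ∃ (e : ZMod m) (w1 w2 : ℤ), Seg m typ R p e w1 a ∧ Seg m typ R (e + 1) q w2 b ∧
        w = w1 + 1 + w2 ∧ t = typ e := by
  induction h with
  | run p q N x h1 h2 h3 =>
    intro a b t hW
    exfalso
    have := congrArg PW.len hW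
    rw [len_mul, len_mul, len_i, len_z] at this
    omega
  | cons p a' q N x w κ h1 h2 h3 h4 ih =>
    intro a b t hW
    rcases levi hW with ⟨A', hA, hb⟩ | ⟨B', ha, hκ⟩
    · have hl := congrArg PW.len hA
      rw [len_mul, len_mul, len_mul, len_i, len_z, len_z] at hl
      have ea : a = i a.g := eq_i_of_len (by omega)
      have eA : A' = i A'.g := eq_i_of_len (by omega)
      rw [ea] at hA
      have h5 : i (a.g⁻¹ * x) * z (typ p) * 1 = z t * A' := by
        rw [i_mul, mul_one, mul_assoc, hA, mul_assoc, ← mul_assoc (i a.g⁻¹), i_inv_mul_i, one_mul]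
      obtain ⟨h6, h7, h8⟩ := z_eq h5
      rw [mul_one] at h8
      refine ⟨a', -(N : ℤ), w, ?_, ?_, rfl, ?_⟩
      · rw [ea]
        refine Seg.run p a' N _ h1 h2 (fun h => ?_)
        have h9 := (hC p _ (C.inv_mem h6) x (h3 h)).2
        have h10 : x * (a.g⁻¹ * x)⁻¹ = a.g := by group
        rwa [h10] at h9
      · rw [hb, h8]
        exact seg_left hC h4 h6
      · rw [← h7, h1]
    · obtain ⟨e, w1, w2, h5, h6, h7, h8⟩ := ih B' b t hκ
      refine ⟨e, -(N : ℤ) + 1 + w1, w2, ?_, h6, ?_, h8⟩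
      · rw [ha]
        exact Seg.cons p a' e N x w1 B' h1 h2 h3 h5
      · rw [h7]; ring

theorem seg_edge {p e : ZMod m} {w : ℤ} {a : PW G C} (h : Seg m typ R p e w a) :
    ∀ (q : ZMod m) (w' : ℤ) (b : PW G C), Seg m typ R (e + 1) q w' b →
      Seg m typ R p q (w + 1 + w') (a * z (typ e) * b) := by
  induction h with
  | run p e N x h1 h2 h3 =>
    intro q w' b hb
    have := Seg.cons (typ := typ) (R := R) p e q N x w' b h1 h2 h3 hb
    rwa [h1] at this
  | cons p a' e N x w κ h1 h2 h3 h4 ih =>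
    intro q w' b hb
    have := Seg.cons (typ := typ) (R := R) p a' q N x _ _ h1 h2 h3 (ih q w' b hb)
    have e1 : -(N : ℤ) + 1 + (w + 1 + w') = -(N : ℤ) + 1 + w + 1 + w' := by ring
    rw [e1] at this
    simpa only [mul_assoc] using this

theorem seg_vert [NeZero m] (hR : ∀ p, ∀ x ∈ R p, ∀ y ∈ R p, x * y ∈ R p)
    {p e : ZMod m} {w : ℤ} {a : PW G C} (h : Seg m typ R p e w a) :
    ∀ (e' q : ZMod m) (w' : ℤ) (b : PW G C), Seg m typ R e' q w' b → typ e = typ e' →
      Seg m typ R p q (w + w' - ((e - e').val : ℤ)) (a * b) := by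
  induction h with
  | run p e N x h1 h2 h3 =>
    intro e' q w' b hb ht
    have hcast : ∀ (N' : ℕ) (a' : ZMod m), (N' : ZMod m) = e' - a' →
        ((N + N' + (e - e').val : ℕ) : ZMod m) = p - a' := by
      intro N' a' h4
      push_cast
      rw [h2, h4, ZMod.natCast_zmod_val]
      ring
    have hmem : ∀ (N' : ℕ) (y : G), (N' = 0 → y ∈ R e') → N + N' + (e - e').val = 0 →
        x * y ∈ R p := by
      intro N' y h4 h5
      have hN : N = 0 := by omega
      have hN' : N' = 0 := by omega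
      have hv : (e - e').val = 0 := by omega
      rw [ZMod.val_eq_zero, sub_eq_zero] at hv
      have hpe : p = e := by
        rw [hN] at h2
        rw [Nat.cast_zero] at h2
        exact (sub_eq_zero.1 h2.symm)
      have hy := h4 hN'
      rw [← hv, ← hpe] at hy
      exact hR p x (h3 hN) y hy
    cases hb with
    | run _ _ N' y h4 h5 h6 =>
      have := Seg.run (typ := typ) (R := R) (C := C) p q (N + N' + (e - e').val) (x * y)
        (by rw [h1, ht, h4]) (hcast N' q h5) (hmem N' y h6)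
      rw [i_mul] at this
      have e1 : -((N + N' + (e - e').val : ℕ) : ℤ) = -(N : ℤ) + -(N' : ℤ) - ((e - e').val : ℤ) := by
        push_cast; ring
      rwa [e1] at this
    | cons _ a' _ N' y w κ h4 h5 h6 h7 =>
      have := Seg.cons (typ := typ) (R := R) (C := C) p a' q (N + N' + (e - e').val) (x * y) w κ
        (by rw [h1, ht, h4]) (hcast N' a' h5) (hmem N' y h6) h7
      rw [i_mul, h1, ht] at this
      have e1 : -((N + N' + (e - e').val : ℕ) : ℤ) + 1 + w
          = -(N : ℤ) + (-(N' : ℤ) + 1 + w) - ((e - e').val : ℤ) := by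
        push_cast; ring
      rw [e1] at this
      simpa only [mul_assoc] using this
  | cons p a' e N x w κ h1 h2 h3 h4 ih =>
    intro e' q w' b hb ht
    have := Seg.cons (typ := typ) (R := R) p a' q N x _ _ h1 h2 h3 (ih e' q w' b hb ht)
    have e1 : -(N : ℤ) + 1 + (w + w' - ((e - e').val : ℤ))
        = -(N : ℤ) + 1 + w + w' - ((e - e').val : ℤ) := by ring
    rw [e1] at this
    simpa only [mul_assoc] using this

theorem val_sum [NeZero m] (hm : 2 ≤ m) (e f : ZMod m) (h : e ≠ f) :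
    (e - (f + 1)).val + (f - (e + 1)).val ≤ m - 2 := by
  set u : ZMod m := e - (f + 1) with hu
  have h1 : u.val < m := ZMod.val_lt u
  have h2 : u.val ≠ m - 1 := by
    intro h3
    apply h
    have h4 : ((m - 1 : ℕ) : ZMod m) = u := by rw [← h3, ZMod.natCast_zmod_val]
    rw [Nat.cast_sub (by omega)] at h4
    have h5 : (m : ZMod m) = 0 := ZMod.natCast_self m
    rw [h5, Nat.cast_one, zero_sub, hu] at h4
    have h6 : e - f = 0 := by
      have : e - f = e - (f + 1) + 1 := by ring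
      rw [this, ← h4]; ring
    exact sub_eq_zero.1 h6
  have h3 : f - (e + 1) = ((m - 2 - u.val : ℕ) : ZMod m) := by
    have h5 : (m : ZMod m) = 0 := ZMod.natCast_self m
    rw [Nat.cast_sub (by omega), Nat.cast_sub hm, ZMod.natCast_zmod_val, h5, hu]
    push_cast
    ring
  rw [h3, ZMod.val_natCast, Nat.mod_eq_of_lt (by omega)]
  omega

theorem main : Pool.Agent.Y52.RS.S_SEG := by
  intro G _ C m typ R hm htyp hR hC hRC
  have : NeZero m := ⟨by omega⟩
  refine ⟨?_, ?_, ?_, ?_, ?_, ?_⟩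
  · -- conj
    rintro s κ c hc ⟨q, w, h1, h2, h3⟩
    exact ⟨q, w, h1, h2, seg_right hC (seg_left hC h3 hc) (C.inv_mem hc)⟩
  · -- rot
    rintro s t a b ⟨q, w, h1, h2, h3⟩
    obtain ⟨e, w1, w2, h4, h5, h6, h7⟩ := seg_dec hC h3 a b t rfl
    refine ⟨e, w2 + 1 + w1, ?_, by omega, ?_⟩
    · rw [htyp, ← h7]
    · have hq : typ q = !s := by rw [← h1, htyp, Bool.not_not]
      rw [← hq]
      exact seg_edge h5 e w1 a h4
  · -- sub
    rintro s t a b κ ⟨q, w, h1, h2, h3⟩ ⟨f, w', h1', h2', h3'⟩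
    obtain ⟨e, w1, w2, h4, h5, h6, h7⟩ := seg_dec hC h3 a b t rfl
    have hef : typ e = typ (f + 1) := by rw [← h7, h1']
    have hne : e ≠ f := by
      intro h
      rw [h, htyp] at hef
      revert hef
      cases typ f <;> simp
    have hfe : typ f = typ (e + 1) := by
      rw [htyp, hef, htyp, Bool.not_not]
    have h8 := seg_vert hR h4 (f + 1) f w' κ h3' hef
    have h9 := seg_vert hR h8 (e + 1) q w2 b h5 hfe
    refine ⟨q, _, h1, ?_, h9⟩
    have h10 := val_sum hm e f hne
    omega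
  · -- close
    rintro s t a b ⟨q, w, h1, h2, h3⟩
    obtain ⟨e, w1, w2, h4, h5, h6, h7⟩ := seg_dec hC h3 a (z (!t) * b) t
      (by simp only [mul_assoc])
    obtain ⟨e', w21, w22, g4, g5, g6, g7⟩ := seg_dec hC h5 1 b (!t) (by rw [one_mul])
    obtain ⟨N, k1, k2, k3, k4⟩ := seg_zero g4 (x := 1) i_one.symm
    have hN0 : N ≠ 0 := fun h => hRC _ _ (k4 h) C.one_mem
    have hN1 : N ≠ 1 := by
      intro h
      rw [h, Nat.cast_one] at k2
      have h8 : e = e' := by
        have : e - e' = 0 := by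
          have h9 : e - e' = (e + 1 - e') - 1 := by ring
          rw [h9, ← k2, sub_self]
        exact sub_eq_zero.1 this
      rw [← h8, ← h7] at g7
      revert g7
      cases t <;> simp
    have hte : typ e = typ (e' + 1) := by
      rw [htyp, ← g7, Bool.not_not, h7]
    have h9 := seg_vert hR h4 (e' + 1) q w22 b g5 hte
    refine ⟨q, _, h1, ?_, h9⟩
    have h10 : e - (e' + 1) = ((N - 2 : ℕ) : ZMod m) := by
      rw [Nat.cast_sub (by omega), k2]
      push_cast
      ring
    have h11 : (e - (e' + 1)).val ≤ N - 2 := by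
      rw [h10, ZMod.val_natCast]
      exact Nat.mod_le _ _
    omega
  · -- len
    rintro s κ ⟨q, w, h1, h2, h3⟩
    have := seg_len h3
    omega
  · -- two
    rintro s t c x hc ⟨q, w, h1, h2, h3⟩
    obtain ⟨e, w1, w2, h4, h5, h6, h7⟩ := seg_dec hC h3 (i c) (i x) t rfl
    obtain ⟨N, k1, k2, k3, k4⟩ := seg_zero h4 (x := c) rfl
    obtain ⟨N', l1, l2, l3, l4⟩ := seg_zero h5 (x := x) rfl
    have hN0 : N ≠ 0 := fun h => hRC _ _ (k4 h) hc
    omega

end Pool.Agent.Y899.RS.SegJob
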