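import Pool.Agent.Y105.RS.Stm

/-!
# Project RS, part MARK (helper899)

Random colourings by the first mark on the forward orbit.
-/

set_option autoImplicit false
set_option linter.unusedSectionVars false
set_option linter.unusedVariables false

open Finset Equiv

namespace Pool.Agent.Y899.RS

open Pool.Agent.Y105.RS

/-! ### product weights -/

/-- sums of products over all functions -/
theorem sum_prod {V : Type} [Fintype V] [DecidableEq V] {B : Type} [Fintype B]
    (f : V → B → ℝ) : ∑ ε : V → B, ∏ v, f v (ε v) = ∏ v, ∑ b, f v b := by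
  classical
  rw [Finset.prod_univ_sum, Fintype.piFinset_univ]

section weights

variable {V : Type} [Fintype V] [DecidableEq V]

/-- weight of a set of marks -/
noncomputable def wt (q : ℝ) (ε : V → Bool) : ℝ := ∏ v, if ε v then q else 1 - q

theorem wt_nn {q : ℝ} (h0 : 0 ≤ q) (h1 : q ≤ 1) (ε : V → Bool) : 0 ≤ wt q ε := by
  refine Finset.prod_nonneg fun v _ => ?_
  split_ifs
  · exact h0
  · linarith

/-- the probability that no point of `S` is marked -/
theorem unm (q : ℝ) (S : Finset V) :
    ∑ ε : V → Bool, wt q ε * (if ∀ v ∈ S, ε v = false then 1 else 0) = (1 - q) ^ S.card := by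
  classical
  have h1 : ∀ ε : V → Bool, wt q ε * (if ∀ v ∈ S, ε v = false then (1 : ℝ) else 0) =
      ∏ v, (if ε v then q else 1 - q) * (if v ∈ S ∧ ε v = true then 0 else 1) := by
    intro ε
    rw [Finset.prod_mul_distrib]
    congr 1
    by_cases h : ∀ v ∈ S, ε v = false
    · rw [if_pos h, Finset.prod_eq_one]
      intro v _
      rw [if_neg]
      rintro ⟨h2, h3⟩
      rw [h v h2] at h3
      cases h3
    · rw [if_neg h]
      push Not at h
      obtain ⟨v, hv, hv'⟩ := h
      refine (Finset.prod_eq_zero (Finset.mem_univ v) ?_).symm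
      rw [if_pos ⟨hv, by simpa using hv'⟩]
  rw [Finset.sum_congr rfl fun ε _ => h1 ε,
    sum_prod (fun v b => (if b then q else 1 - q) * (if v ∈ S ∧ b = true then 0 else 1))]
  have h2 : ∀ v : V, ∑ b : Bool, (if b then q else 1 - q) * (if v ∈ S ∧ b = true then 0 else 1) =
      if v ∈ S then 1 - q else (1 : ℝ) := by
    intro v
    rw [Fintype.sum_bool]
    by_cases hv : v ∈ S
    · simp [hv]
    · simp [hv]
  rw [Finset.prod_congr rfl fun v _ => h2 v, Finset.prod_ite_mem, Finset.univ_inter,
    Finset.prod_const]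

theorem wt_sum (q : ℝ) : ∑ ε : V → Bool, wt q ε = 1 := by
  have h := unm (V := V) q ∅
  simpa using h

/-- the probability that two points have the same colour -/
theorem col {m : ℕ} (hm : 1 ≤ m) (x y : V) :
    ∑ κ : V → Fin m, (∏ _v : V, (1 / m : ℝ)) * (if κ x = κ y then 1 else 0) =
      if x = y then 1 else 1 / (m : ℝ) := by
  classical
  have hm0 : (m : ℝ) ≠ 0 := by
    have : (0 : ℝ) < m := by exact_mod_cast hm
    exact this.ne'
  by_cases hxy : x = y
  · subst hxy
    simp only [if_true, mul_one]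
    rw [sum_prod (fun (_ : V) (_ : Fin m) => (1 / m : ℝ))]
    refine Finset.prod_eq_one fun v _ => ?_
    rw [Finset.sum_const, Finset.card_univ, Fintype.card_fin, nsmul_eq_mul]
    field_simp
  · rw [if_neg hxy]
    have h1 : ∀ κ : V → Fin m, (∏ _v : V, (1 / m : ℝ)) * (if κ x = κ y then 1 else 0) =
        ∑ c : Fin m, ∏ v, (1 / m : ℝ) * (if v ∈ ({x, y} : Finset V) ∧ κ v ≠ c then 0 else 1) := by
      intro κ
      have h2 : ∀ c : Fin m, ∏ v, (1 / m : ℝ) *
          (if v ∈ ({x, y} : Finset V) ∧ κ v ≠ c then 0 else 1) =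
          (∏ _v : V, (1 / m : ℝ)) * (if κ x = c ∧ κ y = c then 1 else 0) := by
        intro c
        rw [Finset.prod_mul_distrib]
        congr 1
        by_cases h : κ x = c ∧ κ y = c
        · rw [if_pos h, Finset.prod_eq_one]
          intro v _
          rw [if_neg]
          rintro ⟨h3, h4⟩
          rcases Finset.mem_insert.1 h3 with rfl | h3
          · exact h4 h.1
          · rw [Finset.mem_singleton.1 h3] at h4
            exact h4 h.2
        · rw [if_neg h]
          by_cases hx : κ x = c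
          · have hy : κ y ≠ c := fun hy => h ⟨hx, hy⟩
            refine Finset.prod_eq_zero (Finset.mem_univ y) ?_
            rw [if_pos ⟨by simp, hy⟩]
          · refine Finset.prod_eq_zero (Finset.mem_univ x) ?_
            rw [if_pos ⟨by simp, hx⟩]
      rw [Finset.sum_congr rfl fun c _ => h2 c, ← Finset.mul_sum]
      congr 1
      by_cases h : κ x = κ y
      · rw [if_pos h, Finset.sum_eq_single (κ x)]
        · rw [if_pos ⟨rfl, h.symm⟩]
        · intro c _ hc
          rw [if_neg]
          exact fun h' => hc h'.1.symm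
        · intro h'
          exact absurd (Finset.mem_univ _) h'
      · rw [if_neg h, Finset.sum_eq_zero]
        intro c _
        rw [if_neg]
        exact fun h' => h (h'.1.trans h'.2.symm)
    rw [Finset.sum_congr rfl fun κ _ => h1 κ, Finset.sum_comm]
    have h3 : ∀ c : Fin m, ∑ κ : V → Fin m, ∏ v, (1 / m : ℝ) *
        (if v ∈ ({x, y} : Finset V) ∧ κ v ≠ c then 0 else 1) = (1 / m : ℝ) ^ 2 := by
      intro c
      rw [sum_prod (fun (v : V) (b : Fin m) => (1 / m : ℝ) *
        (if v ∈ ({x, y} : Finset V) ∧ b ≠ c then 0 else 1))]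
      have h4 : ∀ v : V, ∑ b : Fin m, (1 / m : ℝ) *
          (if v ∈ ({x, y} : Finset V) ∧ b ≠ c then 0 else 1) =
          if v ∈ ({x, y} : Finset V) then (1 / m : ℝ) else 1 := by
        intro v
        rw [← Finset.mul_sum]
        by_cases hv : v ∈ ({x, y} : Finset V)
        · rw [if_pos hv, Finset.sum_eq_single c]
          · simp
          · intro b _ hb
            rw [if_pos ⟨hv, hb⟩]
          · intro h'
            exact absurd (Finset.mem_univ _) h'
        · rw [if_neg hv]
          have h5 : ∀ b : Fin m, (if v ∈ ({x, y} : Finset V) ∧ b ≠ c then (0 : ℝ) else 1) = 1 :=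
            fun b => if_neg fun h' => hv h'.1
          rw [Finset.sum_congr rfl fun b _ => h5 b, Finset.sum_const, Finset.card_univ,
            Fintype.card_fin, nsmul_eq_mul]
          field_simp
      rw [Finset.prod_congr rfl fun v _ => h4 v, Finset.prod_ite_mem, Finset.univ_inter,
        Finset.prod_const, Finset.card_pair hxy]
    rw [Finset.sum_congr rfl fun c _ => h3 c, Finset.sum_const, Finset.card_univ,
      Fintype.card_fin, nsmul_eq_mul]
    field_simp

end weights

/-! ### the first mark -/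

section first

variable {V : Type} [Fintype V] [DecidableEq V]

open Classical in
/-- the first marked point on the forward orbit; a representative if there is none -/
noncomputable def fm (σ : Perm V) (ε : V → Bool) (a : V) : V :=
  if h : ∃ n : ℕ, ε ((σ ^ n) a) = true then (σ ^ Nat.find h) a
  else Quotient.out (Quotient.mk (Perm.SameCycle.setoid σ) a)

omit [Fintype V] [DecidableEq V] in
theorem fm_same (σ : Perm V) (ε : V → Bool) (a : V) : σ.SameCycle a (fm σ ε a) := by
  classical
  unfold fm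
  split_ifs with h
  · exact Perm.sameCycle_pow_right.2 (Perm.SameCycle.refl σ a)
  · have h1 := Quotient.mk_out (s := Perm.SameCycle.setoid σ) a
    exact Perm.SameCycle.symm h1

omit [Fintype V] [DecidableEq V] in
theorem fm_eq (σ : Perm V) (ε : V → Bool) (a : V) (k : ℕ)
    (h : ∀ i < k, ε ((σ ^ i) a) = false) : fm σ ε ((σ ^ k) a) = fm σ ε a := by
  classical
  have hadd : ∀ t : ℕ, (σ ^ t) ((σ ^ k) a) = (σ ^ (t + k)) a := by
    intro t
    rw [pow_add, Perm.mul_apply]
  by_cases h1 : ∃ n : ℕ, ε ((σ ^ n) a) = true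
  · have hn := Nat.find_spec h1
    have hmin := fun t => Nat.find_min h1 (m := t)
    have hk : k ≤ Nat.find h1 := by
      by_contra hlt
      rw [h _ (by omega)] at hn
      cases hn
    have h2 : ∃ n : ℕ, ε ((σ ^ n) ((σ ^ k) a)) = true := by
      refine ⟨Nat.find h1 - k, ?_⟩
      rw [hadd, Nat.sub_add_cancel hk]
      exact hn
    have h3 : Nat.find h2 = Nat.find h1 - k := by
      rw [Nat.find_eq_iff]
      refine ⟨?_, fun t ht => ?_⟩
      · rw [hadd, Nat.sub_add_cancel hk]
        exact hn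
      · rw [hadd]
        exact hmin (t + k) (by omega)
    unfold fm
    rw [dif_pos h1, dif_pos h2, h3, hadd, Nat.sub_add_cancel hk]
  · have h2 : ¬ ∃ n : ℕ, ε ((σ ^ n) ((σ ^ k) a)) = true := by
      rintro ⟨n, hn⟩
      rw [hadd] at hn
      exact h1 ⟨_, hn⟩
    unfold fm
    rw [dif_neg h1, dif_neg h2]
    congr 1
    refine Quotient.sound ?_
    exact Perm.sameCycle_pow_left.2 (Perm.SameCycle.refl σ a)

/-- the claim on two points with the same first mark -/
theorem claim (σ : Perm V) (ε : V → Bool) (a z : V) (j j' : ℕ)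
    (hj : (σ ^ j) a = z) (hjm : ∀ t < j, (σ ^ t) a ≠ z)
    (hj' : (σ ^ j') z = a) (hjm' : ∀ t < j', (σ ^ t) z ≠ a) (h : fm σ ε a = fm σ ε z) :
    (∀ i < j, ε ((σ ^ i) a) = false) ∨ ∀ t < j', ε ((σ ^ t) z) = false := by
  classical
  by_contra hcon
  push Not at hcon
  obtain ⟨⟨i, hi, hi'⟩, t, ht, ht'⟩ := hcon
  have h1 : ∃ n : ℕ, ε ((σ ^ n) a) = true := ⟨i, by simpa using hi'⟩
  have h2 : ∃ n : ℕ, ε ((σ ^ n) z) = true := ⟨t, by simpa using ht'⟩
  have h3 : Nat.find h1 ≤ i := Nat.find_min' h1 (by simpa using hi')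
  have h4 : Nat.find h2 ≤ t := Nat.find_min' h2 (by simpa using ht')
  unfold fm at h
  rw [dif_pos h1, dif_pos h2] at h
  set p := Nat.find h1
  set r := Nat.find h2
  rcases le_or_gt p r with hpr | hpr
  · refine hjm' (r - p) (by omega) ?_
    have h5 : (σ ^ p) ((σ ^ (r - p)) z) = (σ ^ p) a := by
      rw [← Perm.mul_apply, ← pow_add, h]
      congr 2
      omega
    exact (σ ^ p).injective h5
  · refine hjm (p - r) (by omega) ?_
    have h5 : (σ ^ r) ((σ ^ (p - r)) a) = (σ ^ r) z := by
      rw [← Perm.mul_apply, ← pow_add, ← h]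
      congr 2
      omega
    exact (σ ^ r).injective h5

/-- the points of the orbit up to the first return are different -/
theorem card_orb (σ : Perm V) (a z : V) (j : ℕ) (hj : (σ ^ j) a = z)
    (hjm : ∀ t < j, (σ ^ t) a ≠ z) : ((range j).image fun i => (σ ^ i) a).card = j := by
  rw [Finset.card_image_of_injOn, card_range]
  have key : ∀ i i' : ℕ, i < i' → i' < j → (σ ^ i) a ≠ (σ ^ i') a := by
    intro i i' hlt hlt' he
    refine hjm (j - (i' - i)) (by omega) ?_
    have h1 : (σ ^ (j - i')) ((σ ^ i) a) = (σ ^ (j - i')) ((σ ^ i') a) := by rw [he]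
    rw [← Perm.mul_apply, ← pow_add, ← Perm.mul_apply, ← pow_add] at h1
    have e1 : j - i' + i = j - (i' - i) := by omega
    have e2 : j - i' + i' = j := by omega
    rw [e1, e2, hj] at h1
    exact h1
  intro i hi i' hi' he
  have h1 := Finset.mem_range.1 (Finset.mem_coe.1 hi)
  have h2 := Finset.mem_range.1 (Finset.mem_coe.1 hi')
  rcases lt_trichotomy i i' with h | h | h
  · exact absurd he (key i i' h h2)
  · exact h
  · exact absurd he.symm (key i' i h h1)

end first

/-- a geometric sum over different exponents -/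
theorem geo {V : Type} (T : Finset V) (r : ℝ) (h0 : 0 ≤ r) (h1 : r < 1) (j : V → ℕ)
    (hj : Set.InjOn j (T : Set V)) : ∑ z ∈ T, r ^ j z ≤ (1 - r)⁻¹ := by
  classical
  rw [← Finset.sum_image (s := T) (g := j) (f := fun n => r ^ n) hj,
    ← tsum_geometric_of_lt_one h0 h1]
  exact (summable_geometric_of_lt_one h0 h1).sum_le_tsum _ (fun n _ => pow_nonneg h0 n)

theorem unm_event {V : Type} [Fintype V] [DecidableEq V] (q : ℝ) (σ : Perm V) (a : V) (k : ℕ) :
    ∑ ε : V → Bool, wt q ε * (if ∀ i < k, ε ((σ ^ i) a) = false then 1 else 0) =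
      (1 - q) ^ ((range k).image fun i => (σ ^ i) a).card := by
  classical
  rw [← unm]
  refine Finset.sum_congr rfl fun ε _ => ?_
  congr 1
  refine if_congr ?_ rfl rfl
  constructor
  · intro h v hv
    obtain ⟨i, hi, rfl⟩ := Finset.mem_image.1 hv
    exact h i (Finset.mem_range.1 hi)
  · intro h i hi
    exact h _ (Finset.mem_image.2 ⟨i, Finset.mem_range.2 hi, rfl⟩)

/-- the expected number of points with the same first mark -/
theorem expect {V : Type} [Fintype V] [DecidableEq V] {q : ℝ} (h0 : 0 < q) (h1 : q ≤ 1)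
    (σ : Perm V) (a : V) :
    ∑ z : V, ∑ ε : V → Bool, wt q ε * (if fm σ ε a = fm σ ε z then 1 else 0) ≤ 2 * q⁻¹ := by
  classical
  set T : Finset V := univ.filter fun z => σ.SameCycle a z with hT
  have hex : ∀ z : V, ∃ j j' : ℕ, z ∈ T → ((σ ^ j) a = z ∧ (∀ t < j, (σ ^ t) a ≠ z) ∧
      (σ ^ j') z = a ∧ ∀ t < j', (σ ^ t) z ≠ a) := by
    intro z
    by_cases hz : z ∈ T
    · have hz' : σ.SameCycle a z := (Finset.mem_filter.1 hz).2
      have e1 : ∃ n : ℕ, (σ ^ n) a = z := by
        obtain ⟨i, _, hi⟩ := hz'.exists_pow_eq'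
        exact ⟨i, hi⟩
      have e2 : ∃ n : ℕ, (σ ^ n) z = a := by
        obtain ⟨i, _, hi⟩ := hz'.symm.exists_pow_eq'
        exact ⟨i, hi⟩
      exact ⟨Nat.find e1, Nat.find e2, fun _ => ⟨Nat.find_spec e1, fun t ht => Nat.find_min e1 ht,
        Nat.find_spec e2, fun t ht => Nat.find_min e2 ht⟩⟩
    · exact ⟨0, 0, fun h => absurd h hz⟩
  choose j j' hjj using hex
  have hr0 : (0 : ℝ) ≤ 1 - q := by linarith
  have hr1 : 1 - q < 1 := by linarith
  -- outside of the cycle
  have hout : ∀ z : V, z ∉ T → ∑ ε : V → Bool, wt q ε *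
      (if fm σ ε a = fm σ ε z then 1 else 0) = 0 := by
    intro z hz
    refine Finset.sum_eq_zero fun ε _ => ?_
    rw [if_neg, mul_zero]
    intro he
    apply hz
    refine Finset.mem_filter.2 ⟨Finset.mem_univ z, ?_⟩
    have e1 := fm_same σ ε a
    rw [he] at e1
    exact e1.trans (fm_same σ ε z).symm
  have hin : ∀ z ∈ T, ∑ ε : V → Bool, wt q ε *
      (if fm σ ε a = fm σ ε z then 1 else 0) ≤ (1 - q) ^ j z + (1 - q) ^ j' z := by
    intro z hz
    obtain ⟨f1, f2, f3, f4⟩ := hjj z hz
    have e1 := unm_event q σ a (j z)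
    have e2 := unm_event q σ z (j' z)
    rw [card_orb σ a z (j z) f1 f2] at e1
    rw [card_orb σ z a (j' z) f3 f4] at e2
    rw [← e1, ← e2, ← Finset.sum_add_distrib]
    refine Finset.sum_le_sum fun ε _ => ?_
    rw [← mul_add]
    refine mul_le_mul_of_nonneg_left ?_ (wt_nn h0.le h1 ε)
    by_cases he : fm σ ε a = fm σ ε z
    · rw [if_pos he]
      rcases claim σ ε a z (j z) (j' z) f1 f2 f3 f4 he with h | h
      · rw [if_pos h]
        have : (0 : ℝ) ≤ if ∀ i < j' z, ε ((σ ^ i) z) = false then 1 else 0 := by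
          split_ifs <;> norm_num
        linarith
      · rw [if_pos h]
        have : (0 : ℝ) ≤ if ∀ i < j z, ε ((σ ^ i) a) = false then 1 else 0 := by
          split_ifs <;> norm_num
        linarith
    · rw [if_neg he]
      have e3 : (0 : ℝ) ≤ if ∀ i < j' z, ε ((σ ^ i) z) = false then 1 else 0 := by
        split_ifs <;> norm_num
      have e4 : (0 : ℝ) ≤ if ∀ i < j z, ε ((σ ^ i) a) = false then 1 else 0 := by
        split_ifs <;> norm_num
      linarith
  have hsum : ∑ z : V, ∑ ε : V → Bool, wt q ε * (if fm σ ε a = fm σ ε z then 1 else 0) =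
      ∑ z ∈ T, ∑ ε : V → Bool, wt q ε * (if fm σ ε a = fm σ ε z then (1 : ℝ) else 0) := by
    refine (Finset.sum_subset (Finset.subset_univ T) fun z _ hz => ?_).symm
    exact hout z hz
  rw [hsum]
  refine (Finset.sum_le_sum hin).trans ?_
  rw [Finset.sum_add_distrib]
  have g1 := geo T (1 - q) hr0 hr1 j (by
    intro z hz z' hz' he
    have e1 := (hjj z (Finset.mem_coe.1 hz)).1
    have e2 := (hjj z' (Finset.mem_coe.1 hz')).1
    rw [← e1, ← e2, he])
  have g2 := geo T (1 - q) hr0 hr1 j' (by
    intro z hz z' hz' he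
    have e1 := (hjj z (Finset.mem_coe.1 hz)).2.2.1
    have e2 := (hjj z' (Finset.mem_coe.1 hz')).2.2.1
    rw [he] at e1
    exact (σ ^ j' z').injective (e1.trans e2.symm))
  have e5 : (1 - (1 - q))⁻¹ = q⁻¹ := by
    congr 1
    ring
  rw [e5] at g1 g2
  linarith

theorem mark : S_MARK := by
  classical
  intro V _ _ m K hm hK
  have hK0 : (0 : ℝ) < K := by exact_mod_cast hK
  have hK1 : (1 : ℝ) ≤ K := by exact_mod_cast hK
  have hm0 : (0 : ℝ) < m := by exact_mod_cast hm
  set q : ℝ := 1 / (2 * K) with hq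
  have hq0 : 0 < q := by positivity
  have hKq : K * q = 1 / 2 := by
    rw [hq]
    field_simp
  have hq1 : q ≤ 1 := by nlinarith
  have hcol0 : (0 : ℝ) ≤ ∏ _v : V, (1 / m : ℝ) := Finset.prod_nonneg fun _ _ => by positivity
  have hpair : ∀ (σ : Perm V) (a z : V),
      ∑ ω : (V → Bool) × (V → Fin m), (wt q ω.1 * ∏ _v : V, (1 / m : ℝ)) *
        (if ω.2 (fm σ ω.1 a) = ω.2 (fm σ ω.1 z) then 1 else 0) =
      ∑ ε : V → Bool, wt q ε * (if fm σ ε a = fm σ ε z then 1 else 1 / (m : ℝ)) := by
    intro σ a z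
    rw [Fintype.sum_prod_type]
    refine Finset.sum_congr rfl fun ε _ => ?_
    rw [← col hm (fm σ ε a) (fm σ ε z), Finset.mul_sum]
    refine Finset.sum_congr rfl fun κ _ => ?_
    rw [mul_assoc]
  refine ⟨(V → Bool) × (V → Fin m), inferInstance, fun ω => wt q ω.1 * ∏ _v : V, (1 / m : ℝ),
    fun σ ω a => ω.2 (fm σ ω.1 a), fun ω => mul_nonneg (wt_nn hq0.le hq1 _) hcol0, ?_, ?_, ?_⟩
  · rw [Fintype.sum_prod_type]
    simp only
    have h1 : ∀ ε : V → Bool, ∑ _κ : V → Fin m, wt q ε * ∏ _v : V, (1 / m : ℝ) = wt q ε := by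
      intro ε
      rw [← Finset.mul_sum, sum_prod (fun (_ : V) (_ : Fin m) => (1 / m : ℝ)),
        Finset.prod_eq_one, mul_one]
      intro v _
      rw [Finset.sum_const, Finset.card_univ, Fintype.card_fin, nsmul_eq_mul]
      field_simp
    rw [Finset.sum_congr rfl fun ε _ => h1 ε]
    exact wt_sum q
  · rintro σ a b ⟨k, hk, rfl⟩
    have h1 := hpair σ a ((σ ^ k) a)
    refine le_trans ?_ (le_of_eq h1.symm)
    have h2 := unm_event q σ a k
    have h3 : (1 / 2 : ℝ) ≤ (1 - q) ^ ((range k).image fun i => (σ ^ i) a).card := by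
      have h4 : ((range k).image fun i => (σ ^ i) a).card ≤ k := by
        refine Finset.card_image_le.trans ?_
        rw [card_range]
      have h5 : (1 - q) ^ k ≤ (1 - q) ^ ((range k).image fun i => (σ ^ i) a).card :=
        pow_le_pow_of_le_one (by linarith) (by linarith) h4
      have h6 := one_add_mul_le_pow (a := -q) (by linarith) k
      have h7 : (k : ℝ) * q ≤ K * q := mul_le_mul_of_nonneg_right (by exact_mod_cast hk) hq0.le
      have h8 : 1 + -q = 1 - q := by ring
      rw [h8] at h6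
      linarith
    rw [← h2] at h3
    refine h3.trans (Finset.sum_le_sum fun ε _ => ?_)
    refine mul_le_mul_of_nonneg_left ?_ (wt_nn hq0.le hq1 ε)
    by_cases h : ∀ i < k, ε ((σ ^ i) a) = false
    · rw [if_pos h, if_pos (fm_eq σ ε a k h).symm]
    · rw [if_neg h]
      split_ifs
      · norm_num
      · positivity
  · intro σ a g κ hg0 hgκ hg1
    have hκ : 0 ≤ κ := (hg0 a).trans (hgκ a)
    have h1 : ∀ z, ∑ ω : (V → Bool) × (V → Fin m), (wt q ω.1 * ∏ _v : V, (1 / m : ℝ)) *
        (if ω.2 (fm σ ω.1 a) = ω.2 (fm σ ω.1 z) then 1 else 0) ≤ 1 / m +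
        ∑ ε : V → Bool, wt q ε * (if fm σ ε a = fm σ ε z then 1 else 0) := by
      intro z
      rw [hpair σ a z]
      have h2 : (1 / m : ℝ) = ∑ ε : V → Bool, wt q ε * (1 / m : ℝ) := by
        rw [← Finset.sum_mul, wt_sum, one_mul]
      rw [h2, ← Finset.sum_add_distrib]
      refine Finset.sum_le_sum fun ε _ => ?_
      rw [← mul_add, ← h2]
      refine mul_le_mul_of_nonneg_left ?_ (wt_nn hq0.le hq1 ε)
      have h3 : (0 : ℝ) ≤ 1 / m := by positivity
      split_ifs
      · linarith
      · linarith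
    have h2 : ∀ z, 0 ≤ ∑ ε : V → Bool, wt q ε * (if fm σ ε a = fm σ ε z then (1 : ℝ) else 0) := by
      intro z
      refine Finset.sum_nonneg fun ε _ => mul_nonneg (wt_nn hq0.le hq1 ε) ?_
      split_ifs <;> norm_num
    calc ∑ z, g z * ∑ ω : (V → Bool) × (V → Fin m), (wt q ω.1 * ∏ _v : V, (1 / m : ℝ)) *
          (if ω.2 (fm σ ω.1 a) = ω.2 (fm σ ω.1 z) then 1 else 0)
        ≤ ∑ z, (g z * (1 / m) +
          κ * ∑ ε : V → Bool, wt q ε * (if fm σ ε a = fm σ ε z then 1 else 0)) := by
          refine Finset.sum_le_sum fun z _ => ?_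
          have h3 := mul_le_mul_of_nonneg_left (h1 z) (hg0 z)
          have h4 := mul_le_mul_of_nonneg_right (hgκ z) (h2 z)
          rw [mul_add] at h3
          linarith
      _ = 1 / m + κ * ∑ z : V, ∑ ε : V → Bool,
          wt q ε * (if fm σ ε a = fm σ ε z then 1 else 0) := by
          rw [Finset.sum_add_distrib, ← Finset.sum_mul, hg1, one_mul, ← Finset.mul_sum]
      _ ≤ 1 / m + κ * (2 * q⁻¹) := by
          have h5 := mul_le_mul_of_nonneg_left (expect hq0 hq1 σ a) hκ
          linarith
      _ ≤ 1 / m + (4 * K + 1) * κ := by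
          have h6 : q⁻¹ = 2 * K := by
            rw [hq]
            field_simp
          rw [h6]
          nlinarith

end Pool.Agent.Y899.RS
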